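import Pool.Agent.Helper70.HS.Stmts

namespace Pool.Agent.Helper35.HS

open Pool.Agent.Helper70.HS
open Pool.Agent.Helper69.RK (cel)
open MeasureTheory Measure Filter Topology

noncomputable section

/-- the dyadic cell `p` -/
def cont_cell {m : ℕ} (p : ℕ × (Fin m → ℤ)) : Set (Fin m → ℝ) := {y | cel p.1 y = p.2}

theorem cont_diam {m : ℕ} (p : ℕ × (Fin m → ℤ)) :
    Metric.ediam (cont_cell p) ≤ ENNReal.ofReal ((2 : ℝ) ^ (-(p.1 : ℝ))) := by
  refine Metric.ediam_le fun x hx y hy => ?_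
  rw [edist_dist]
  refine ENNReal.ofReal_le_ofReal ?_
  refine (dist_pi_le_iff (by positivity)).2 fun i => ?_
  have h1 := congrFun hx i
  have h2 := congrFun hy i
  simp only [cel] at h1 h2
  rw [Real.dist_eq]
  have a1 := Int.floor_le ((2 : ℝ) ^ p.1 * x i)
  have a2 := Int.lt_floor_add_one ((2 : ℝ) ^ p.1 * x i)
  have b1 := Int.floor_le ((2 : ℝ) ^ p.1 * y i)
  have b2 := Int.lt_floor_add_one ((2 : ℝ) ^ p.1 * y i)
  rw [h1] at a1 a2
  rw [h2] at b1 b2
  have hp : (0 : ℝ) < (2 : ℝ) ^ p.1 := by positivity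
  have h3 : |(2 : ℝ) ^ p.1 * (x i - y i)| ≤ 1 := by
    rw [abs_le]
    constructor <;> nlinarith
  rw [abs_mul, abs_of_pos hp] at h3
  rw [Real.rpow_neg (by norm_num), Real.rpow_natCast, ← one_div, le_div_iff₀ hp]
  linarith

theorem cont_lim (a : ℝ) (ha : 0 < a) :
    Tendsto (fun j : ℕ => ENNReal.ofReal ((2 : ℝ) ^ (-((j : ℝ) * a)))) atTop (𝓝 0) := by
  rw [← ENNReal.ofReal_zero]
  refine ENNReal.tendsto_ofReal ?_
  have h1 : ∀ j : ℕ, (2 : ℝ) ^ (-((j : ℝ) * a)) = ((2 : ℝ) ^ (-a)) ^ j := by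
    intro j
    rw [← Real.rpow_natCast, ← Real.rpow_mul (by norm_num)]
    congr 1
    ring
  simp only [h1]
  refine tendsto_pow_atTop_nhds_zero_of_lt_one (by positivity) ?_
  exact Real.rpow_lt_one_of_one_lt_of_neg (by norm_num) (by linarith)

theorem st_CONT : ST_CONT := by
  intro m σ X hσ hdim
  rcases hσ.eq_or_lt with h0 | hpos
  · refine ⟨1, one_pos, fun Q hQ => ?_⟩
    have hne : X.Nonempty := by
      rw [Set.nonempty_iff_ne_empty]
      rintro rfl
      rw [dimH_empty] at hdim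
      exact absurd hdim not_lt_zero
    obtain ⟨x, hx⟩ := hne
    obtain ⟨k, hk⟩ := hQ x hx
    unfold wQ
    refine le_trans ?_ (ENNReal.le_tsum (⟨(k, cel k x), hk⟩ : Q))
    simp [← h0]
  · by_contra hcon
    have hj : ∀ j : ℕ, ∃ Q : Set (ℕ × (Fin m → ℤ)), Cov Q X ∧
        wQ σ Q < ENNReal.ofReal ((2 : ℝ) ^ (-(j : ℝ))) := by
      intro j
      by_contra hn
      refine hcon ⟨(2 : ℝ) ^ (-(j : ℝ)), by positivity, fun Q hQ => ?_⟩
      by_contra hlt
      exact hn ⟨Q, hQ, not_le.1 hlt⟩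
    choose Q hQ hw using hj
    have hsum : ∀ j, ∑' p : Q j, Metric.ediam (cont_cell p.1) ^ σ ≤
        ENNReal.ofReal ((2 : ℝ) ^ (-((j : ℝ) * 1))) := by
      intro j
      rw [mul_one]
      refine le_trans ?_ (hw j).le
      unfold wQ
      refine ENNReal.tsum_le_tsum fun p => ?_
      refine (ENNReal.rpow_le_rpow (cont_diam p.1) hσ).trans ?_
      rw [ENNReal.ofReal_rpow_of_pos (by positivity)]
      refine le_of_eq ?_
      congr 1
      rw [← Real.rpow_mul (by norm_num)]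
      congr 1
      ring
    have hr : ∀ j (p : Q j), Metric.ediam (cont_cell p.1) ≤
        ENNReal.ofReal ((2 : ℝ) ^ (-((j : ℝ) * (1 / σ)))) := by
      intro j p
      refine (cont_diam p.1).trans (ENNReal.ofReal_le_ofReal ?_)
      have h1 : ENNReal.ofReal ((2 : ℝ) ^ (-(σ * (p.1.1 : ℝ)))) < ENNReal.ofReal ((2 : ℝ) ^ (-(j : ℝ))) := by
        refine lt_of_le_of_lt ?_ (hw j)
        unfold wQ
        exact ENNReal.le_tsum p
      have h2 : (2 : ℝ) ^ (-(σ * (p.1.1 : ℝ))) < (2 : ℝ) ^ (-(j : ℝ)) :=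
        (ENNReal.ofReal_lt_ofReal_iff (by positivity)).1 h1
      have h3 := (Real.rpow_lt_rpow_left_iff (by norm_num : (1 : ℝ) < 2)).1 h2
      refine Real.rpow_le_rpow_of_exponent_le (by norm_num) ?_
      have h4 : (j : ℝ) * (1 / σ) ≤ (p.1.1 : ℝ) := by
        rw [mul_one_div, div_le_iff₀ hpos]
        linarith
      linarith
    have key : μH[σ] X = 0 := by
      have h1 := hausdorffMeasure_le_liminf_tsum (ι := fun j : ℕ => (Q j : Type)) σ X (l := atTop)
        (fun j : ℕ => ENNReal.ofReal ((2 : ℝ) ^ (-((j : ℝ) * (1 / σ)))))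
        (cont_lim (1 / σ) (by positivity)) (fun j (p : Q j) => cont_cell p.1)
        (Eventually.of_forall hr) (Eventually.of_forall fun j x hx => by
          obtain ⟨k, hk⟩ := hQ j x hx
          exact Set.mem_iUnion.2 ⟨⟨(k, cel k x), hk⟩, rfl⟩)
      have h2 : Tendsto (fun j : ℕ => ∑' p : Q j, Metric.ediam (cont_cell p.1) ^ σ) atTop (𝓝 0) :=
        tendsto_of_tendsto_of_tendsto_of_le_of_le tendsto_const_nhds (cont_lim 1 one_pos)
          (fun _ => zero_le) hsum
      rw [h2.liminf_eq] at h1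
      exact le_antisymm h1 zero_le
    have h2 : dimH X ≤ (σ.toNNReal : ENNReal) := by
      refine dimH_le_of_hausdorffMeasure_ne_top ?_
      rw [Real.coe_toNNReal σ hσ, key]
      exact ENNReal.zero_ne_top
    exact absurd hdim (not_lt.2 h2)

end

end Pool.Agent.Helper35.HS
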